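import Pool.Agent.Work.MP_a60953_an.Hedge.Main

/-! The Hopf-lemma variant for the Laplacian fails in every dimension `n = m + 2 ≥ 2` and for
every axis profile `u(t, 0) = f(t)` that vanishes to order at least four at `t = 0`, of finite
or infinite order. A point `x` of `ℝ^n` is `(t, y)` with `t = x 0` and
`y = (x 1, …, x (n-1))`. -/

open scoped Laplacian ContDiff

namespace Pool.Agent.Results.MP_a60953_an.EveryProfile

/-- The cylinder `Ω = {(t, y) : |y| < 1, 0 < t < 1}` in `ℝ^(m+2)`. -/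
def Omega (m : ℕ) : Set (EuclideanSpace ℝ (Fin (m + 2))) :=
  {x | ∑ j : Fin (m + 1), x j.succ ^ 2 < 1 ∧ 0 < x 0 ∧ x 0 < 1}

/-- `f` is smooth, vanishes at `0` with its first three derivatives, and `f' > 0` on `(0, 1)`. -/
def Admissible (f : ℝ → ℝ) : Prop :=
  ContDiff ℝ ∞ f ∧ (∀ j ≤ 3, iteratedDeriv j f 0 = 0) ∧ ∀ t ∈ Set.Ioo (0 : ℝ) 1, 0 < deriv f t

open Pool.Agent.Work.MP_a60953_an.Hedge in
theorem result :
    (∀ k : ℕ, 4 ≤ k → Admissible fun t => t ^ k) ∧ Admissible expNegInvGlue ∧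
    ∀ (m : ℕ) (f : ℝ → ℝ), Admissible f →
      ∃ (L : ℝ) (u v : EuclideanSpace ℝ (Fin (m + 2)) → ℝ), 0 < L ∧
        (∀ x, u x = f (x 0) + L * x 0 * ∑ j : Fin (m + 1), x j.succ ^ 2) ∧
        (∀ x, v x = f (x 0 / 4) + L * (x 0 * (1 + x 0) / 2) * ∑ j : Fin (m + 1), x j.succ ^ 2) ∧
        ContDiff ℝ ∞ u ∧ ContDiff ℝ ∞ v ∧
        (∀ x ∈ Omega m, v x < u x) ∧
        (∀ x ∈ Omega m, 0 < u x ∧ 0 < v x ∧ 0 < lineDeriv ℝ u x (EuclideanSpace.single 0 1)) ∧
        (∀ x : EuclideanSpace ℝ (Fin (m + 2)),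
          x 0 = 0 → ∑ j : Fin (m + 1), x j.succ ^ 2 < 1 → u x = 0) ∧
        (∀ x ∈ Omega m, ∀ z ∈ Omega m, (∀ j : Fin (m + 1), x j.succ = z j.succ) → x 0 ≤ z 0 →
          u x = v z → Laplacian.laplacian u x ≤ Laplacian.laplacian v z) ∧
        lineDeriv ℝ u 0 (EuclideanSpace.single 0 1) = 0 ∧
        (∃ x ∈ Omega m, u x ≠ v x) ∧
        (∀ x : EuclideanSpace ℝ (Fin (m + 2)), x 0 = 0 → x ≠ 0 →
          0 < lineDeriv ℝ u x (EuclideanSpace.single 0 1)) ∧
        ∀ x : EuclideanSpace ℝ (Fin (m + 2)), x 0 = 0 →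
          iteratedDeriv 2 (fun t : ℝ => u (x + t • EuclideanSpace.single 0 1)) 0 = 0 := by
  refine ⟨fun k hk => ⟨contDiff_id.pow k, pow_zero_jet hk, fun t ht => pow_deriv_pos hk t ht.1⟩,
    ⟨expNegInvGlue.contDiff, fun j _ => glue_zero_jet j, fun t ht => glue_deriv_pos t ht.1⟩, ?_⟩
  rintro m f ⟨hf, h0, hpos⟩
  have z0 : f 0 = 0 := by simpa using h0 0 (by norm_num)
  have z1 : deriv f 0 = 0 := by simpa using h0 1 (by norm_num)
  obtain ⟨L, hL, hcmp⟩ := comparison (m := m) hf (h0 2 (by norm_num)) (h0 3 le_rfl) hpos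
  have mono := strictMonoOn_of_pos hf hpos
  have hd : ∀ z, HasDerivAt f (deriv f z) z := fun z =>
    (hf.differentiable (by simp) z).hasDerivAt
  have hB : ∀ z : ℝ, HasDerivAt (fun t : ℝ => L * t) L z := fun z => by
    simpa using (hasDerivAt_id z).const_mul L
  have hlt : ∀ x ∈ Omega m,
      G m (fun t => f (t / 4)) (fun t => L * (t * (1 + t) / 2)) x < G m f (fun t => L * t) x := by
    rintro x ⟨-, h1, h2⟩
    have a : f (x 0 / 4) < f (x 0) :=
      mono ⟨by linarith, by linarith⟩ ⟨h1.le, h2.le⟩ (by linarith)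
    have b : x 0 * (1 + x 0) / 2 ≤ x 0 := by nlinarith
    have c := mul_le_mul_of_nonneg_right (mul_le_mul_of_nonneg_left b hL.le) (rho_nonneg x)
    unfold G
    linarith
  refine ⟨L, G m f (fun t => L * t), G m (fun t => f (t / 4)) (fun t => L * (t * (1 + t) / 2)),
    hL, fun _ => rfl, fun _ => rfl, contDiff_G hf (by fun_prop),
    contDiff_G (hf.comp (by fun_prop)) (by fun_prop), hlt, ?_, ?_, ?_, ?_, ?_, ?_, ?_⟩
  · intro x hx
    have hv : 0 < G m (fun t => f (t / 4)) (fun t => L * (t * (1 + t) / 2)) x := by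
      obtain ⟨-, h1, h2⟩ := hx
      have a : f 0 < f (x 0 / 4) :=
        mono ⟨le_rfl, zero_le_one⟩ ⟨by linarith, by linarith⟩ (by linarith)
      have b : 0 ≤ L * (x 0 * (1 + x 0) / 2) * rho m x :=
        mul_nonneg (by positivity) (rho_nonneg x)
      unfold G
      linarith
    refine ⟨hv.trans (hlt x hx), hv, ?_⟩
    rw [lineDeriv_G x (hd _) (hB _)]
    have a := hpos (x 0) ⟨hx.2.1, hx.2.2⟩
    have b := mul_nonneg hL.le (rho_nonneg x)
    linarith
  · intro x hx _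
    simp [G, hx, z0]
  · intro x hx z hz hy hts h
    exact hcmp x z hx.2.1 hts hz.2.2 (Finset.sum_congr rfl fun j _ => by rw [hy j]) h
  · rw [lineDeriv_G _ (hd _) (hB _)]
    simp [rho, z1]
  · have hmem : EuclideanSpace.single 0 (1 / 2) ∈ Omega m := by
      refine ⟨?_, ?_, ?_⟩
      · simp [Fin.succ_ne_zero]
      · simp
      · simp; norm_num
    exact ⟨_, hmem, (hlt _ hmem).ne'⟩
  · intro x hx hne
    rw [lineDeriv_G x (hd _) (hB _), hx, z1, zero_add]
    refine mul_pos hL (lt_of_le_of_ne (rho_nonneg x) fun h => hne ?_)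
    have hall := (Finset.sum_eq_zero_iff_of_nonneg fun (j : Fin (m + 1)) _ =>
      sq_nonneg (x j.succ)).1 h.symm
    ext i
    refine Fin.cases ?_ (fun j => ?_) i
    · simpa using hx
    · simpa using hall j (Finset.mem_univ j)
  · intro x hx
    have e : (fun t : ℝ => G m f (fun t => L * t) (x + t • EuclideanSpace.single 0 1)) =
        fun t => f t + L * rho m x * t := by
      funext t
      simp [G, rho, hx, Fin.succ_ne_zero]
      ring
    have d1 : deriv (fun t => f t + L * rho m x * t) = fun t => deriv f t + L * rho m x := by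
      funext t
      have := (hd t).fun_add ((hasDerivAt_id' t).const_mul (L * rho m x))
      simpa using this.deriv
    have z2 := h0 2 (by norm_num)
    rw [iteratedDeriv_succ, iteratedDeriv_one] at z2
    rw [e, iteratedDeriv_succ, iteratedDeriv_one, d1, deriv_add_const, z2]

end Pool.Agent.Results.MP_a60953_an.EveryProfile
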