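import Pool.Agent.Work.MP_a60953_an.Pos.LowOrder
import Pool.Agent.Results.MP_a60953_an.EveryProfile

/-! For which axis profiles `f(t) = u(t, 0)` does the Hopf-lemma variant for the Laplacian hold?
Exactly for those that vanish to order two or three at `t = 0`, in every dimension
`n = m + 2 ≥ 2`. A point `x` of `ℝ^n` is `(t, y)` with `t = x 0` and `y = (x 1, …, x (n-1))`. -/

open scoped Laplacian ContDiff

namespace Pool.Agent.Results.MP_a60953_an.OrderDichotomy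

/-- The cylinder `Ω = {(t, y) : |y| < 1, 0 < t < 1}` in `ℝ^(m+2)`. -/
def Omega (m : ℕ) : Set (EuclideanSpace ℝ (Fin (m + 2))) :=
  {x | ∑ j : Fin (m + 1), x j.succ ^ 2 < 1 ∧ 0 < x 0 ∧ x 0 < 1}

open Pool.Agent.Work.MP_a60953_an.Pos in
theorem result (m : ℕ) (f : ℝ → ℝ) (hf : ContDiff ℝ ∞ f) (f0 : f 0 = 0) (f1 : deriv f 0 = 0)
    (hpos : ∀ t ∈ Set.Ioo (0 : ℝ) 1, 0 < deriv f t) :
    (∀ u v : EuclideanSpace ℝ (Fin (m + 2)) → ℝ, ContDiff ℝ ∞ u → ContDiff ℝ ∞ v →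
      (∀ x ∈ Omega m, v x ≤ u x) →
      (∀ x ∈ Omega m, 0 < u x ∧ 0 < v x ∧ 0 < lineDeriv ℝ u x (EuclideanSpace.single 0 1)) →
      (∀ x : EuclideanSpace ℝ (Fin (m + 2)),
        x 0 = 0 → ∑ j : Fin (m + 1), x j.succ ^ 2 < 1 → u x = 0) →
      (∀ x ∈ Omega m, ∀ z ∈ Omega m, (∀ j : Fin (m + 1), x j.succ = z j.succ) → x 0 ≤ z 0 →
        u x = v z → Laplacian.laplacian u x ≤ Laplacian.laplacian v z) →
      lineDeriv ℝ u 0 (EuclideanSpace.single 0 1) = 0 →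
      (∀ t ∈ Set.Ico (0 : ℝ) 1, u (EuclideanSpace.single 0 t) = f t) →
      ∀ x ∈ Omega m, u x = v x) ↔
    (iteratedDeriv 2 f 0 ≠ 0 ∨ iteratedDeriv 3 f 0 ≠ 0) := by
  constructor
  · intro h
    by_contra hneg
    obtain ⟨z2, z3⟩ := not_or.1 hneg
    obtain ⟨L, u, v, -, hu, -, cu, cv, h1, h2, h3, h4, h5, ⟨x, hx, hne⟩, -, -⟩ :=
      EveryProfile.result.2.2 m f ⟨hf, fun j hj => by
        interval_cases j
        · simpa using f0
        · simpa using f1
        · exact not_not.1 z2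
        · exact not_not.1 z3, hpos⟩
    exact hne (h u v cu cv (fun x hx => (h1 x hx).le) h2 h3 h4 h5
      (fun t _ => by simp [hu, Fin.succ_ne_zero]) x hx)
  · intro h u v hu hv h1 h2 h3 h4 h5 hax
    have hs : ContDiff ℝ ∞ fun t : ℝ => u (EuclideanSpace.single 0 t) := by
      simp only [single_eq]
      exact hu.comp (by unfold pt; fun_prop)
    refine LowOrder.low_order m u v hu hv h1 h2 h3 h4 h5 ?_
    rwa [LowOrder.jet_eq hs hf hax, LowOrder.jet_eq hs hf hax]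

end Pool.Agent.Results.MP_a60953_an.OrderDichotomy
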